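import Mathlib
import Pool.Agent.H16.CU.C8

set_option autoImplicit false

/-!
# Unions of values of cubic polynomials on short intervals

Let `χ` be any non-principal character modulo `p`.

* If `F`, `G` are polynomials of degree `3` modulo `p` with the same leading coefficient and
  `p^(1/3 + ε) ≤ n, n' < p/2` then `|∑_{x < n, y < n'} χ(F(x) - G(y))| ≤ p^(-τ) n n'`.
* Hence Q1 for all disjoint unions `A` of sets `F_j({0, ..., n_j - 1})`, `n_j ≥ p^(1/3 + ε)`, where the `F_j` are cubic
  polynomials with a common leading coefficient, injective on the intervals, any number of pieces. Examples: the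
  values of a cubic polynomial `F` on one arithmetic progression of length `≥ p^(1/3 + ε)` in arbitrary
  position; the sets `F(I) + C` with an arbitrary set `C` (if the sums are distinct); the cubes of the elements of a union
  of intervals of these lengths.

Proof. For `u = x - y` the polynomial `F(y + u) - G(y)` is a constant times `(y + h_u)² - D_u`, and each
value of `D_u` is taken at most four times. So the theorem follows from a mean value of Burgess type over
families of quadratic polynomials `(y + h)² - D` with different `D` and arbitrary `h`: for `M` such polynomials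
and intervals of length `N` one saves a power of `p` as soon as `M N² ≥ p^(1 + ε)`. After the shift `y → y + ab`
the polynomial is a point `(z₁, z₂)` of the plane if `D` is a square, and a point of the field with `p²` elements if
not, and the high moments over all these points are bounded by Weil's theorem over the fields with `p`
and with `p²` elements.
-/

open Finset

namespace Pool.Agent.Results.MP_cb27ba_nt.CubicPieces

/-- the union of the sets `F_j({0, ..., n_j - 1})` -/
noncomputable def values {p : ℕ} {ι : Type} (J : Finset ι) (F : ι → Polynomial (ZMod p)) (n : ι → ℕ) : Finset (ZMod p) :=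
  J.biUnion fun j => (range (n j)).image fun x : ℕ => (F j).eval (x : ZMod p)

/-- **Difference sums over unions of values of cubic polynomials on intervals.** -/
theorem result (ε : ℝ) (hε : 0 < ε) :
    ∃ τ : ℝ, 0 < τ ∧ ∃ P : ℕ, ∀ p : ℕ, p.Prime → P ≤ p → ∀ χ : DirichletCharacter ℂ p, χ ≠ 1 →
      (∀ F G : Polynomial (ZMod p), F.natDegree = 3 → G.natDegree = 3 → F.leadingCoeff = G.leadingCoeff →
        ∀ n n' : ℕ, (p : ℝ) ^ (1 / 3 + ε) ≤ n → (p : ℝ) ^ (1 / 3 + ε) ≤ n' → 2 * n < p → 2 * n' < p →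
          ‖∑ x ∈ range n, ∑ y ∈ range n', χ (F.eval (x : ZMod p) - G.eval (y : ZMod p))‖
            ≤ (p : ℝ) ^ (-τ) * (n * n')) ∧
      ∀ (ι : Type) (J : Finset ι) (F : ι → Polynomial (ZMod p)) (n : ι → ℕ), J.Nonempty →
        (∀ j ∈ J, (F j).natDegree = 3) → (∀ i ∈ J, ∀ j ∈ J, (F i).leadingCoeff = (F j).leadingCoeff) →
        (∀ j ∈ J, (p : ℝ) ^ (1 / 3 + ε) ≤ n j ∧ 2 * n j < p) →
        -- the polynomials are injective on their intervals and the images are disjoint
        (values J F n).card = ∑ j ∈ J, n j →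
        ‖∑ a ∈ values J F n, ∑ b ∈ values J F n, χ (a - b)‖ < ((values J F n).card : ℝ) ^ (2 - τ) := by
  classical
  obtain ⟨η, hη0, P1, hP1⟩ := H16.CU.cubic_pair ε hε
  refine ⟨η / 2, by positivity, P1 + 2, fun p hpp hp χ hχ => ?_⟩
  have : Fact p.Prime := ⟨hpp⟩
  have hp1' : (1:ℝ) < p := by exact_mod_cast hpp.one_lt
  have hp1 : (1:ℝ) ≤ p := hp1'.le
  have hp0 : (0:ℝ) < p := by linarith
  have hηlt : (p : ℝ) ^ (-η) < (p : ℝ) ^ (-(η / 2)) := Real.rpow_lt_rpow_of_exponent_lt hp1' (by linarith)
  have key : ∀ F G : Polynomial (ZMod p), F.natDegree = 3 → G.natDegree = 3 → F.leadingCoeff = G.leadingCoeff →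
        ∀ n n' : ℕ, (p : ℝ) ^ (1 / 3 + ε) ≤ n → (p : ℝ) ^ (1 / 3 + ε) ≤ n' → 2 * n < p → 2 * n' < p →
          ‖∑ x ∈ range n, ∑ y ∈ range n', χ (F.eval (x : ZMod p) - G.eval (y : ZMod p))‖
            ≤ (p : ℝ) ^ (-η) * (n * n') := by
    intro F G hF hG hFG n n' hn hn' hnp hnp'
    have hlead : F.coeff 3 ≠ 0 := by
      rw [← hF]
      intro h0
      have h0' : F.leadingCoeff = 0 := h0
      rw [Polynomial.leadingCoeff_eq_zero] at h0'
      rw [h0', Polynomial.natDegree_zero] at hF
      omega
    have hGF : G.coeff 3 = F.coeff 3 := by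
      unfold Polynomial.leadingCoeff at hFG
      rw [hF, hG] at hFG
      exact hFG.symm
    have ev : ∀ x : ZMod p, F.eval x = F.coeff 3 * x ^ 3 + F.coeff 2 * x ^ 2 + F.coeff 1 * x + F.coeff 0 := by
      intro x
      rw [Polynomial.eval_eq_sum_range, hF]
      simp [sum_range_succ]
      ring
    have ev' : ∀ x : ZMod p, G.eval x = F.coeff 3 * x ^ 3 + G.coeff 2 * x ^ 2 + G.coeff 1 * x + G.coeff 0 := by
      intro x
      rw [Polynomial.eval_eq_sum_range, hG, ← hGF]
      simp [sum_range_succ]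
      ring
    simp_rw [ev, ev']
    exact hP1 p (by omega) χ hχ (F.coeff 3) (F.coeff 2) (F.coeff 1) (F.coeff 0) (G.coeff 2) (G.coeff 1) (G.coeff 0)
      hlead n n' hn hn' hnp hnp'
  refine ⟨fun F G hF hG hFG n n' hn hn' hnp hnp' => (key F G hF hG hFG n n' hn hn' hnp hnp').trans
    (mul_le_mul_of_nonneg_right hηlt.le (by positivity)), fun ι J F n hJ hdeg hlead hn hcard => ?_⟩
  set A := values J F n with hA
  have hinj : ∀ g : ZMod p → ℂ, ∑ b ∈ A, g b = ∑ j ∈ J, ∑ y ∈ range (n j), g ((F j).eval (y : ZMod p)) := by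
    intro g
    have hA' : A = (J.sigma fun j => range (n j)).image fun v => (F v.1).eval ((v.2 : ℕ) : ZMod p) := by
      rw [hA]
      unfold values
      ext b
      rw [mem_biUnion, mem_image]
      constructor
      · rintro ⟨j, hj, hb⟩
        obtain ⟨x, hx, rfl⟩ := mem_image.1 hb
        exact ⟨⟨j, x⟩, mem_sigma.2 ⟨hj, hx⟩, rfl⟩
      · rintro ⟨⟨j, x⟩, hv, rfl⟩
        rw [mem_sigma] at hv
        exact ⟨j, hv.1, mem_image.2 ⟨x, hv.2, rfl⟩⟩
    have hc : ((J.sigma fun j => range (n j)).image fun v => (F v.1).eval ((v.2 : ℕ) : ZMod p)).card =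
        (J.sigma fun j => range (n j)).card := by
      rw [← hA', hcard, card_sigma]
      simp
    rw [hA', sum_image (card_image_iff.1 hc), sum_sigma]
  have hA0 : (0:ℝ) < A.card := by
    obtain ⟨j, hj⟩ := hJ
    have h1 : (0:ℝ) < n j := lt_of_lt_of_le (by positivity) (hn j hj).1
    have h2 : n j ≤ A.card := by
      rw [hcard]
      exact single_le_sum (f := fun j => n j) (fun _ _ => Nat.zero_le _) hj
    have h3 : (n j : ℝ) ≤ A.card := by exact_mod_cast h2
    linarith
  have hAp : (A.card : ℝ) ≤ p := by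
    have : A.card ≤ p := by
      refine (card_le_univ _).trans ?_
      rw [ZMod.card]
    exact_mod_cast this
  have h3 : ‖∑ a ∈ A, ∑ b ∈ A, χ (a - b)‖ ≤ (p : ℝ) ^ (-η) * (A.card : ℝ) ^ 2 := by
    have e2 : ∑ a ∈ A, ∑ b ∈ A, χ (a - b) = ∑ i ∈ J, ∑ j ∈ J, ∑ x ∈ range (n i), ∑ y ∈ range (n j),
        χ ((F i).eval (x : ZMod p) - (F j).eval (y : ZMod p)) := by
      rw [hinj]
      simp_rw [hinj]
      refine sum_congr rfl fun i _ => ?_
      rw [sum_comm]
    rw [e2]
    calc _ ≤ ∑ i ∈ J, ∑ j ∈ J, (p : ℝ) ^ (-η) * (n i * n j) :=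
          (norm_sum_le _ _).trans (sum_le_sum fun i hi => (norm_sum_le _ _).trans (sum_le_sum fun j hj =>
            key (F i) (F j) (hdeg i hi) (hdeg j hj) (hlead i hi j hj) (n i) (n j) (hn i hi).1 (hn j hj).1
              (hn i hi).2 (hn j hj).2))
      _ = (p : ℝ) ^ (-η) * (A.card : ℝ) ^ 2 := by
          have : ((∑ j ∈ J, n j : ℕ) : ℝ) = A.card := by rw [hcard]
          push_cast at this
          rw [← this, sq, sum_mul_sum, mul_sum]
          refine sum_congr rfl fun i _ => ?_
          rw [mul_sum]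
  calc _ ≤ (p : ℝ) ^ (-η) * (A.card : ℝ) ^ 2 := h3
    _ < (p : ℝ) ^ (-(η / 2)) * (A.card : ℝ) ^ 2 := by gcongr
    _ ≤ (A.card : ℝ) ^ (-(η / 2)) * (A.card : ℝ) ^ 2 := by
        apply mul_le_mul_of_nonneg_right _ (by positivity)
        exact Real.rpow_le_rpow_of_nonpos hA0 hAp (by linarith)
    _ = (A.card : ℝ) ^ (2 - η / 2) := by
        rw [← Real.rpow_natCast (A.card : ℝ) 2, ← Real.rpow_add hA0]
        congr 1; push_cast; ring

end Pool.Agent.Results.MP_cb27ba_nt.CubicPieces
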