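import Mathlib
import Pool.Agent.H16.DI.A2

set_option autoImplicit false

/-!
# Unions of translates of sets nearly invariant under dilations

Let `G` be an arbitrary set of at least `p^ε` nonzero residues. A set `X` is nearly invariant if
`|g X \ X| ≤ p^(-ε) |X|` for all `g ∈ G`; for instance a union of cosets of a subgroup of order `≥ p^ε`.

1. There is `c = c(ε) > 0` such that the additive energy of every nearly invariant `X` with `|X| ≥ p^(1/2 - c)` is at
   most `p^(-1/2 - c) |X|⁴`.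

Now let `κ > 0` be arbitrary, and let `τ = τ(ε, κ) > 0`.

2. If `X`, `Y` are nearly invariant with additive energies at most `p^(-1/2 - κ) |X|⁴`, `p^(-1/2 - κ) |Y|⁴`, then
   `|∑_{x ∈ X, y ∈ Y} χ(x - y + d)| ≤ p^(-τ) |X| |Y|` for all `d ≠ 0`.
3. Hence Q1 for all disjoint unions `A` of translates `X_j + c_j` of such sets `X_j` (which may all be different), if no
   translation `c` is used for more than `p^(-κ) |A|` elements. With `κ < c(ε)` this applies to all nearly invariant
   `X_j` with `|X_j| ≥ p^(1/2 - c(ε))`, and `|A|` may be as small as `p^(1/2 - c(ε) + κ)`, which is less than `p^(1/2)`.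

Proof. For `g ∈ G` the sum in (2) is nearly the sum of `χ(g x - g y + d) = χ(g) χ(x - y + d g⁻¹)`, and Burgess's method
(Hölder and Weil) with the shifts `d g⁻¹` works for the points `x - y` if they are spread over more than `p^(1/2)`
elements. For (1): the Fourier transform `F` of `X` is nearly invariant too, so `F(b)` is nearly the average of
`F(g_1 ⋯ g_k b)`, which is small for `b ≠ 0` by the theorem on multilinear exponential sums (Bourgain, Glibichuk, Konyagin;
proved in the library).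
-/

open Finset

namespace Pool.Agent.Results.MP_cb27ba_nt.DilationInvariantTranslates

/-- `|g X \ X| ≤ p^(-ε) |X|` for all `g ∈ G` -/
def NearlyInvariant (p : ℕ) (ε : ℝ) (G X : Finset (ZMod p)) : Prop :=
  ∀ g ∈ G, (((X.image fun x => g * x) \ X).card : ℝ) ≤ (p : ℝ) ^ (-ε) * X.card

/-- the additive energy (the number of solutions of `x + y = z + w`) is at most `p^(-1/2 - c) |X|⁴` -/
def Spread (p : ℕ) (c : ℝ) (X : Finset (ZMod p)) : Prop :=
  (Finset.addEnergy X X : ℝ) ≤ (p : ℝ) ^ (-(1 / 2) - c) * (X.card : ℝ) ^ 4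

/-- the union of the sets `X_j + c_j` -/
def translates {p : ℕ} {ι : Type} (J : Finset ι) (X : ι → Finset (ZMod p)) (c : ι → ZMod p) : Finset (ZMod p) :=
  J.biUnion fun j => (X j).image fun x => x + c j

theorem result (ε : ℝ) (hε : 0 < ε) : ∃ c : ℝ, 0 < c ∧ ∀ κ : ℝ, 0 < κ → ∃ τ : ℝ, 0 < τ ∧ ∃ P : ℕ,
    ∀ p : ℕ, p.Prime → P ≤ p → ∀ G : Finset (ZMod p), (0 : ZMod p) ∉ G → (p : ℝ) ^ ε ≤ G.card →
      -- large nearly invariant sets are spread
      (∀ X : Finset (ZMod p), NearlyInvariant p ε G X → (p : ℝ) ^ (1 / 2 - c) ≤ X.card → Spread p c X) ∧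
      ∀ χ : DirichletCharacter ℂ p, χ ≠ 1 →
        (∀ X Y : Finset (ZMod p), NearlyInvariant p ε G X → NearlyInvariant p ε G Y → Spread p κ X → Spread p κ Y →
          ∀ d : ZMod p, d ≠ 0 → ‖∑ x ∈ X, ∑ y ∈ Y, χ (x - y + d)‖ ≤ (p : ℝ) ^ (-τ) * (X.card * Y.card)) ∧
        ∀ (ι : Type) (J : Finset ι) (X : ι → Finset (ZMod p)) (t : ι → ZMod p), J.Nonempty →
          (∀ j ∈ J, (X j).Nonempty ∧ NearlyInvariant p ε G (X j) ∧ Spread p κ (X j)) →
          -- the translates are disjoint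
          (translates J X t).card = ∑ j ∈ J, (X j).card →
          -- no translation is used for more than `p^(-κ) |A|` elements
          (∀ s : ZMod p, ((∑ j ∈ J with t j = s, (X j).card : ℕ) : ℝ) ≤ (p : ℝ) ^ (-κ) * (translates J X t).card) →
          ‖∑ a ∈ translates J X t, ∑ b ∈ translates J X t, χ (a - b)‖ < ((translates J X t).card : ℝ) ^ (2 - τ) := by
  classical
  obtain ⟨c₀, hc0, hc⟩ := H16.DI.energy ε hε
  obtain ⟨P1, hP1⟩ := hc c₀ hc0 le_rfl
  refine ⟨c₀, hc0, fun κ hκ => ?_⟩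
  obtain ⟨τ, hτ, P2, hP2⟩ := H16.DI.step ε κ hε hκ
  set η : ℝ := min τ κ with hη
  have hη0 : 0 < η := lt_min hτ hκ
  obtain ⟨P3, hP3⟩ := H16.SQ.large_pow (η / 2) (by positivity) 3
  refine ⟨η / 2, by positivity, P1 + P2 + P3 + 2, fun p hpp hp G h0 hG => ?_⟩
  have : Fact p.Prime := ⟨hpp⟩
  have hp1' : (1:ℝ) < p := by exact_mod_cast hpp.one_lt
  have hp1 : (1:ℝ) ≤ p := hp1'.le
  have hp0 : (0:ℝ) < p := by linarith
  have hsp : ∀ c (X : Finset (ZMod p)), Spread p c X ↔ (H16.DI.en X X : ℝ) ≤ (p : ℝ) ^ (-(1 / 2) - c) * (X.card : ℝ) ^ 4 := by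
    intro c X
    unfold Spread
    rw [H16.DI.en_eq]
  refine ⟨fun X hX hXc => (hsp c₀ X).2 (hP1 p (by omega) G X h0 hG hX hXc), fun χ hχ => ?_⟩
  have key : ∀ X Y : Finset (ZMod p), NearlyInvariant p ε G X → NearlyInvariant p ε G Y → Spread p κ X →
      Spread p κ Y → ∀ d : ZMod p, d ≠ 0 →
      ‖∑ x ∈ X, ∑ y ∈ Y, χ (x - y + d)‖ ≤ (p : ℝ) ^ (-η) * (X.card * Y.card) := by
    intro X Y hX hY hX' hY' d hd
    refine (hP2 p (by omega) χ hχ G X Y h0 hG hX hY ((hsp κ X).1 hX') ((hsp κ Y).1 hY') d hd).trans ?_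
    apply mul_le_mul_of_nonneg_right _ (by positivity)
    exact Real.rpow_le_rpow_of_exponent_le hp1 (by linarith [min_le_left τ κ])
  have hηle : (p : ℝ) ^ (-η) ≤ (p : ℝ) ^ (-(η / 2)) := Real.rpow_le_rpow_of_exponent_le hp1 (by linarith)
  refine ⟨fun X Y hX hY hX' hY' d hd => (key X Y hX hY hX' hY' d hd).trans
    (mul_le_mul_of_nonneg_right hηle (by positivity)), fun ι J X t hJ hJX hcard hrep => ?_⟩
  set A := translates J X t with hA
  have hsum : ∀ g : ZMod p → ℂ, ∑ b ∈ A, g b = ∑ j ∈ J, ∑ y ∈ X j, g (y + t j) := by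
    intro g
    have hA' : A = (J.sigma fun j => X j).image fun v => v.2 + t v.1 := by
      rw [hA]
      unfold translates
      ext b
      rw [mem_biUnion, mem_image]
      constructor
      · rintro ⟨j, hj, hb⟩
        obtain ⟨x, hx, rfl⟩ := mem_image.1 hb
        exact ⟨⟨j, x⟩, mem_sigma.2 ⟨hj, hx⟩, rfl⟩
      · rintro ⟨⟨j, x⟩, hv, rfl⟩
        rw [mem_sigma] at hv
        exact ⟨j, hv.1, mem_image.2 ⟨x, hv.2, rfl⟩⟩
    have hc : ((J.sigma fun j => X j).image fun v => v.2 + t v.1).card = (J.sigma fun j => X j).card := by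
      rw [← hA', hcard, card_sigma]
    rw [hA', sum_image (card_image_iff.1 hc), sum_sigma]
  have hA0 : (0:ℝ) < A.card := by
    obtain ⟨j, hj⟩ := hJ
    have h1 : 0 < (X j).card := card_pos.2 (hJX j hj).1
    have h2 : (X j).card ≤ A.card := by
      rw [hcard]
      exact single_le_sum (f := fun j => (X j).card) (fun _ _ => Nat.zero_le _) hj
    exact_mod_cast lt_of_lt_of_le h1 h2
  have hAp : (A.card : ℝ) ≤ p := by
    have : A.card ≤ p := by
      refine (card_le_univ _).trans ?_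
      rw [ZMod.card]
    exact_mod_cast this
  have hsumA : ∑ j ∈ J, ((X j).card : ℝ) = A.card := by
    rw [hcard]; push_cast; rfl
  have hpair : ∀ i ∈ J, ∀ j ∈ J, ‖∑ x ∈ X i, ∑ y ∈ X j, χ ((x + t i) - (y + t j))‖ ≤
      (p : ℝ) ^ (-η) * ((X i).card * (X j).card) + if t j = t i then ((X i).card : ℝ) * (X j).card else 0 := by
    intro i hi j hj
    split_ifs with hij
    · have h1 : ‖∑ x ∈ X i, ∑ y ∈ X j, χ ((x + t i) - (y + t j))‖ ≤ ((X i).card : ℝ) * (X j).card := by
        refine (norm_sum_le _ _).trans ((sum_le_sum fun x _ => (norm_sum_le _ _).trans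
          (sum_le_sum fun y _ => DirichletCharacter.norm_le_one χ _)).trans (le_of_eq ?_))
        simp
      have h2 : 0 ≤ (p : ℝ) ^ (-η) * (((X i).card : ℝ) * (X j).card) := by positivity
      linarith
    · rw [add_zero]
      have h1 := key (X i) (X j) (hJX i hi).2.1 (hJX j hj).2.1 (hJX i hi).2.2 (hJX j hj).2.2 (t i - t j)
        (sub_ne_zero.2 fun h => hij h.symm)
      have e : ∀ x y : ZMod p, (x + t i) - (y + t j) = x - y + (t i - t j) := fun x y => by ring
      simp_rw [e]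
      exact h1
  have h3 : ‖∑ a ∈ A, ∑ b ∈ A, χ (a - b)‖ ≤ 2 * (p : ℝ) ^ (-η) * (A.card : ℝ) ^ 2 := by
    have e2 : ∑ a ∈ A, ∑ b ∈ A, χ (a - b) = ∑ i ∈ J, ∑ j ∈ J, ∑ x ∈ X i, ∑ y ∈ X j,
        χ ((x + t i) - (y + t j)) := by
      rw [hsum]
      simp_rw [hsum]
      refine sum_congr rfl fun i _ => ?_
      rw [sum_comm]
    rw [e2]
    calc _ ≤ ∑ i ∈ J, ∑ j ∈ J, ((p : ℝ) ^ (-η) * ((X i).card * (X j).card) +
            if t j = t i then ((X i).card : ℝ) * (X j).card else 0) :=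
          (norm_sum_le _ _).trans (sum_le_sum fun i hi => (norm_sum_le _ _).trans (sum_le_sum fun j hj =>
            hpair i hi j hj))
      _ = (p : ℝ) ^ (-η) * (A.card : ℝ) ^ 2 + ∑ i ∈ J, ((X i).card : ℝ) * ∑ j ∈ J with t j = t i, ((X j).card : ℝ) := by
          simp_rw [sum_add_distrib]
          congr 1
          · simp_rw [← mul_sum, hsumA, ← sum_mul, hsumA]
            ring
          · refine sum_congr rfl fun i _ => ?_
            rw [sum_filter, mul_sum]
            refine sum_congr rfl fun j _ => ?_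
            split_ifs <;> simp
      _ ≤ (p : ℝ) ^ (-η) * (A.card : ℝ) ^ 2 + ∑ i ∈ J, ((X i).card : ℝ) * ((p : ℝ) ^ (-η) * A.card) := by
          gcongr with i hi
          have := hrep (t i)
          push_cast at this
          refine this.trans ?_
          apply mul_le_mul_of_nonneg_right _ hA0.le
          exact Real.rpow_le_rpow_of_exponent_le hp1 (by linarith [min_le_right τ κ])
      _ = _ := by
          rw [← sum_mul, hsumA]
          ring
  have h4 : 2 * (p : ℝ) ^ (-η) < (p : ℝ) ^ (-(η / 2)) := by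
    have h5 := hP3 p (by omega)
    have h6 : (p : ℝ) ^ (-(η / 2)) = (p : ℝ) ^ (η / 2) * (p : ℝ) ^ (-η) := by
      rw [← Real.rpow_add hp0]; congr 1; ring
    rw [h6]
    have : 0 < (p : ℝ) ^ (-η) := by positivity
    nlinarith
  calc _ ≤ 2 * (p : ℝ) ^ (-η) * (A.card : ℝ) ^ 2 := h3
    _ < (p : ℝ) ^ (-(η / 2)) * (A.card : ℝ) ^ 2 := by gcongr
    _ ≤ (A.card : ℝ) ^ (-(η / 2)) * (A.card : ℝ) ^ 2 := by
        apply mul_le_mul_of_nonneg_right _ (by positivity)
        exact Real.rpow_le_rpow_of_nonpos hA0 hAp (by linarith)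
    _ = (A.card : ℝ) ^ (2 - η / 2) := by
        rw [← Real.rpow_natCast (A.card : ℝ) 2, ← Real.rpow_add hA0]
        congr 1; push_cast; ring

end Pool.Agent.Results.MP_cb27ba_nt.DilationInvariantTranslates
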