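import Mathlib
import Pool.Agent.H16.CU.C7

set_option autoImplicit false

/-!
# Unions of quadratic and Moebius images of short intervals

Let `A` be the disjoint union of sets `A_j = f_j({0, ..., n_j - 1})`, where every `f_j` is a quadratic polynomial
or a fractional linear function `(αy + β)/(γy + δ)`, `γ ≠ 0`, with arbitrary coefficients modulo `p` (different for
different `j`), injective on the interval. If `|A| n_j² ≥ p^(1 + ε)` for all `j` then Q1 holds for `A`, for every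
non-principal character. For example all `n_j ≥ p^(1/3 + ε)` suffices, for any number of pieces; for
`|A| = p^(1/2 - c)` the pieces may have `p^(1/4 + c/2 + ε)` elements, and they may be arbitrarily translated, dilated
and mixed. More generally, for every set `X` with `|X| n_j² ≥ p^(1 + ε)` for all `j` (and `|X| ≥ p^ε`)
`∑_{w ∈ X} |∑_{b ∈ A_j} χ(w - b)| ≤ p^(-τ) |X| |A_j|`.

Proof. For fixed `w` the function `w - f_j(y)` is a constant times `(y + e)² - D_w`, or a constant times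
`(y + s_w)/(y + t)`, and the numbers `D_w`, `(s_w - t)²` take each value at most twice. After the
shift `y → y + ab` this becomes a point of the plane over `F_p` or of the field with `p²` elements; different
parameters rarely give the same point, and high moments over all points are bounded by Weil's theorem
over the fields with `p` and `p²` elements.
-/

open Finset

namespace Pool.Agent.Results.MP_cb27ba_nt.QuadraticMoebiusPieces

/-- `f` is a quadratic polynomial function, or a fractional linear function with a pole outside `{0, ..., n-1}` -/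
def IsPiece {p : ℕ} (f : ZMod p → ZMod p) (n : ℕ) : Prop :=
  (∃ a b c : ZMod p, a ≠ 0 ∧ ∀ y, f y = a * y ^ 2 + b * y + c) ∨
  (∃ α β γ δ : ZMod p, γ ≠ 0 ∧ α * δ - β * γ ≠ 0 ∧ (∀ x : ℕ, x < n → γ * (x : ZMod p) + δ ≠ 0) ∧
    ∀ y, f y = (α * y + β) * (γ * y + δ)⁻¹)

/-- the union of the images `f_j({0, ..., n_j - 1})` -/
def pieces {p : ℕ} {ι : Type} (J : Finset ι) (f : ι → ZMod p → ZMod p) (n : ι → ℕ) : Finset (ZMod p) :=
  J.biUnion fun j => (range (n j)).image fun x : ℕ => f j (x : ZMod p)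

/-- **Difference sums over unions of quadratic and Moebius images of intervals.** -/
theorem result (ε : ℝ) (hε : 0 < ε) :
    ∃ τ : ℝ, 0 < τ ∧ ∃ P : ℕ, ∀ p : ℕ, p.Prime → P ≤ p → ∀ χ : DirichletCharacter ℂ p, χ ≠ 1 →
      ∀ (ι : Type) (J : Finset ι) (f : ι → ZMod p → ZMod p) (n : ι → ℕ), J.Nonempty →
        (∀ j ∈ J, IsPiece (f j) (n j)) →
        -- the functions are injective on their intervals and the images are disjoint
        (pieces J f n).card = ∑ j ∈ J, n j →
        (∀ X : Finset (ZMod p), (p : ℝ) ^ ε ≤ X.card → (∀ j ∈ J, (p : ℝ) ^ (1 + ε) ≤ X.card * (n j : ℝ) ^ 2) →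
          ∀ j ∈ J, ∑ w ∈ X, ‖∑ y ∈ range (n j), χ (w - f j (y : ZMod p))‖ ≤ (p : ℝ) ^ (-τ) * (X.card * n j)) ∧
        ((∀ j ∈ J, (p : ℝ) ^ (1 + ε) ≤ (pieces J f n).card * (n j : ℝ) ^ 2) →
          ‖∑ a ∈ pieces J f n, ∑ b ∈ pieces J f n, χ (a - b)‖ < ((pieces J f n).card : ℝ) ^ (2 - τ)) := by
  classical
  set ε' : ℝ := min ε (1 / 3) with hε'
  have hε'0 : 0 < ε' := lt_min hε (by norm_num)
  obtain ⟨τ2, hτ2, P2, hP2⟩ := H16.CU.bil_quad ε' hε'0
  obtain ⟨τ3, hτ3, P3, hP3⟩ := H16.CU.bil_moeb ε' hε'0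
  set η : ℝ := min τ2 τ3 with hη
  have hη0 : 0 < η := lt_min hτ2 hτ3
  refine ⟨η / 2, by positivity, P2 + P3 + 2, fun p hpp hp χ hχ ι J f n hJ hpiece hcard => ?_⟩
  have : Fact p.Prime := ⟨hpp⟩
  have hp1' : (1:ℝ) < p := by exact_mod_cast hpp.one_lt
  have hp1 : (1:ℝ) ≤ p := hp1'.le
  have hp0 : (0:ℝ) < p := by linarith
  have mono : ∀ {a b : ℝ}, a ≤ b → (p:ℝ) ^ a ≤ (p:ℝ) ^ b := fun h => Real.rpow_le_rpow_of_exponent_le hp1 h
  have key : ∀ X : Finset (ZMod p), (p : ℝ) ^ ε' ≤ X.card → ∀ j ∈ J, (p : ℝ) ^ (1 + ε') ≤ X.card * (n j : ℝ) ^ 2 →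
      ∑ w ∈ X, ‖∑ y ∈ range (n j), χ (w - f j (y : ZMod p))‖ ≤ (p : ℝ) ^ (-η) * (X.card * n j) := by
    intro X hX j hj hXn
    rcases hpiece j hj with ⟨a, b, c, ha, hf⟩ | ⟨α, β, γ, δ, hγ, hdet, hpole, hf⟩
    · simp_rw [hf]
      refine (hP2 p (by omega) χ hχ X a b c ha (n j) hXn hX).trans ?_
      apply mul_le_mul_of_nonneg_right _ (by positivity)
      exact mono (by linarith [min_le_left τ2 τ3])
    · simp_rw [hf]
      refine (hP3 p (by omega) χ hχ X α β γ δ hγ hdet (n j) hpole hXn hX).trans ?_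
      apply mul_le_mul_of_nonneg_right _ (by positivity)
      exact mono (by linarith [min_le_right τ2 τ3])
  have hηlt : (p : ℝ) ^ (-η) < (p : ℝ) ^ (-(η / 2)) := Real.rpow_lt_rpow_of_exponent_lt hp1' (by linarith)
  refine ⟨fun X hX hXn j hj => ?_, fun hn => ?_⟩
  · refine (key X ((mono (min_le_left _ _)).trans hX) j hj
      ((mono (by linarith [min_le_left ε (1 / 3 : ℝ)])).trans (hXn j hj))).trans ?_
    exact mul_le_mul_of_nonneg_right hηlt.le (by positivity)
  · set A := pieces J f n with hA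
    -- injectivity
    have hinj : ∀ g : ZMod p → ℂ, ∑ b ∈ A, g b = ∑ j ∈ J, ∑ y ∈ range (n j), g (f j (y : ZMod p)) := by
      intro g
      have hA' : A = (J.sigma fun j => range (n j)).image fun v => f v.1 ((v.2 : ℕ) : ZMod p) := by
        rw [hA]
        unfold pieces
        ext b
        rw [mem_biUnion, mem_image]
        constructor
        · rintro ⟨j, hj, hb⟩
          obtain ⟨x, hx, rfl⟩ := mem_image.1 hb
          exact ⟨⟨j, x⟩, mem_sigma.2 ⟨hj, hx⟩, rfl⟩
        · rintro ⟨⟨j, x⟩, hv, rfl⟩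
          rw [mem_sigma] at hv
          exact ⟨j, hv.1, mem_image.2 ⟨x, hv.2, rfl⟩⟩
      have hc : ((J.sigma fun j => range (n j)).image fun v => f v.1 ((v.2 : ℕ) : ZMod p)).card =
          (J.sigma fun j => range (n j)).card := by
        rw [← hA', hcard, card_sigma]
        simp
      rw [hA', sum_image (card_image_iff.1 hc), sum_sigma]
    have hA0 : (0:ℝ) < A.card := by
      obtain ⟨j, hj⟩ := hJ
      have h1 := hn j hj
      have h2 : 0 < (A.card : ℝ) * (n j : ℝ) ^ 2 := lt_of_lt_of_le (by positivity) h1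
      rcases Nat.eq_zero_or_pos A.card with h3 | h3
      · rw [h3] at h2; simp at h2
      · exact_mod_cast h3
    have hnA : ∀ j ∈ J, n j ≤ A.card := by
      intro j hj
      rw [hcard]
      exact single_le_sum (f := fun j => n j) (fun _ _ => Nat.zero_le _) hj
    -- `|A| ≥ p^ε'`
    have hAbig : (p : ℝ) ^ ε' ≤ A.card := by
      obtain ⟨j, hj⟩ := hJ
      have h1 := hn j hj
      have h2 : (n j : ℝ) ≤ A.card := by exact_mod_cast hnA j hj
      have h3 : (p : ℝ) ^ (1 : ℝ) ≤ (A.card : ℝ) ^ 3 := by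
        calc (p : ℝ) ^ (1 : ℝ) ≤ (p : ℝ) ^ (1 + ε) := mono (by linarith)
          _ ≤ A.card * (n j : ℝ) ^ 2 := h1
          _ ≤ A.card * (A.card : ℝ) ^ 2 := by gcongr
          _ = (A.card : ℝ) ^ 3 := by ring
      have h4 : ((p : ℝ) ^ ((1:ℝ) / 3)) ^ 3 ≤ (A.card : ℝ) ^ 3 := by
        rw [← Real.rpow_natCast, ← Real.rpow_mul hp0.le]
        have : (1:ℝ) / 3 * ((3:ℕ):ℝ) = 1 := by push_cast; norm_num
        rw [this]; exact h3
      have h5 : (p : ℝ) ^ ((1:ℝ) / 3) ≤ A.card := le_of_pow_le_pow_left₀ (by norm_num) hA0.le h4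
      exact (mono (min_le_right _ _)).trans h5
    have hAp : (A.card : ℝ) ≤ p := by
      have : A.card ≤ p := by
        refine (card_le_univ _).trans ?_
        rw [ZMod.card]
      exact_mod_cast this
    have h3 : ‖∑ a ∈ A, ∑ b ∈ A, χ (a - b)‖ ≤ (p : ℝ) ^ (-η) * (A.card : ℝ) ^ 2 := by
      have e2 : ∑ a ∈ A, ∑ b ∈ A, χ (a - b) = ∑ j ∈ J, ∑ a ∈ A, ∑ y ∈ range (n j), χ (a - f j (y : ZMod p)) := by
        rw [sum_comm (s := J) (t := A)]
        exact sum_congr rfl fun a _ => hinj fun b => χ (a - b)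
      rw [e2]
      calc _ ≤ ∑ j ∈ J, ∑ a ∈ A, ‖∑ y ∈ range (n j), χ (a - f j (y : ZMod p))‖ :=
            (norm_sum_le _ _).trans (sum_le_sum fun j _ => norm_sum_le _ _)
        _ ≤ ∑ j ∈ J, (p : ℝ) ^ (-η) * (A.card * n j) :=
            sum_le_sum fun j hj => key A hAbig j hj ((mono (by linarith [min_le_left ε (1 / 3 : ℝ)])).trans (hn j hj))
        _ = (p : ℝ) ^ (-η) * (A.card : ℝ) ^ 2 := by
            rw [← mul_sum, ← mul_sum]
            have : ((∑ j ∈ J, n j : ℕ) : ℝ) = A.card := by rw [hcard]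
            push_cast at this
            rw [this]; ring
    calc _ ≤ (p : ℝ) ^ (-η) * (A.card : ℝ) ^ 2 := h3
      _ < (p : ℝ) ^ (-(η / 2)) * (A.card : ℝ) ^ 2 := by gcongr
      _ ≤ (A.card : ℝ) ^ (-(η / 2)) * (A.card : ℝ) ^ 2 := by
          apply mul_le_mul_of_nonneg_right _ (by positivity)
          exact Real.rpow_le_rpow_of_nonpos hA0 hAp (by linarith)
      _ = (A.card : ℝ) ^ (2 - η / 2) := by
          rw [← Real.rpow_natCast (A.card : ℝ) 2, ← Real.rpow_add hA0]
          congr 1; push_cast; ring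

end Pool.Agent.Results.MP_cb27ba_nt.QuadraticMoebiusPieces
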