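import Mathlib
import Pool.Agent.H16.SQ.E5

set_option autoImplicit false

/-!
# Squares plus an arbitrary set

Let `N ≥ p^(1/6 + ε)`, `N < p/2`, and let `χ` be any non-principal character modulo the prime `p`.

* For every `d ≠ 0` and all weights `ω(x - y)` with `|ω| ≤ 1`,
  `|∑_{x,y ≤ N} ω(x - y) χ(x² - y² + d)| ≤ p^(-τ) N²`.
* Hence `∑_{c, c' ∈ C} |∑_{x,y ≤ N} χ((q x² + c) - (q y² + c'))| ≤ (p^(-τ) + 1/|C|) N² |C|²` for
  every set `C` of residues and `q ≠ 0`.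
* Hence Q1 for all sets `A = {q x² + c : 1 ≤ x ≤ N, c ∈ C}` with `|A| = N |C|`, where `C` is an arbitrary
  set with at least `p^ε` elements; so `|A|` may be as small as `p^(1/6 + 2ε)`.

Proof. Write `x² - y² + d = u v + d` with `u = x - y`, `v = x + y`. The shift
`(x, y) → (x + ab, y + ab)` replaces `u v + d` by `2ua (z + b)` where `z = (u v + d)/(2 u a)`, and
Burgess's method (Hölder and Weil) needs the number of coincidences of the points `z`. A coincidence is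
`u u' (v a' - v' a) ≡ d (u a - u' a')` modulo `p`. Here both `i = u u' (v a' - v' a)` and
`j = u a - u' a'` are small integers, so `j` determines `i`; if `j ≠ 0` then `u` and `u'` divide the
nonzero integer `i`, which leaves few possibilities. So the number of coincidences is at most `p^o(1)`
times the number of points, for every `d ≠ 0`, as long as `N ≤ p^(1/4)`. For larger `N` one uses
Burgess's bound for intervals.
-/

open Finset

namespace Pool.Agent.Results.MP_cb27ba_nt.SquaresPlusSet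

/-- the set `{q x² + c : 1 ≤ x ≤ N, c ∈ C}` -/
noncomputable def squaresPlus {p : ℕ} (q : ZMod p) (N : ℕ) (C : Finset (ZMod p)) : Finset (ZMod p) :=
  (Icc 1 N ×ˢ C).image fun v => q * (v.1 : ZMod p) ^ 2 + v.2

/-- **Character sums over differences of squares plus a set.** -/
theorem result (ε : ℝ) (hε : 0 < ε) :
    ∃ τ : ℝ, 0 < τ ∧ ∃ P : ℕ, ∀ p : ℕ, p.Prime → P ≤ p → ∀ χ : DirichletCharacter ℂ p, χ ≠ 1 →
      ∀ N : ℕ, (p : ℝ) ^ (1 / 6 + ε) ≤ N → 2 * N < p →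
        (∀ d : ZMod p, d ≠ 0 → ∀ ω : ℤ → ℂ, (∀ u, ‖ω u‖ ≤ 1) →
          ‖∑ x ∈ Icc 1 N, ∑ y ∈ Icc 1 N, ω ((x : ℤ) - y) * χ ((x : ZMod p) ^ 2 - (y : ZMod p) ^ 2 + d)‖
            ≤ (p : ℝ) ^ (-τ) * (N : ℝ) ^ 2) ∧
        (∀ q : ZMod p, q ≠ 0 → ∀ C : Finset (ZMod p),
          ∑ c ∈ C, ∑ c' ∈ C, ‖∑ x ∈ Icc 1 N, ∑ y ∈ Icc 1 N,
              χ ((q * (x : ZMod p) ^ 2 + c) - (q * (y : ZMod p) ^ 2 + c'))‖
            ≤ ((p : ℝ) ^ (-τ) + 1 / (C.card : ℝ)) * ((N : ℝ) ^ 2 * (C.card : ℝ) ^ 2)) ∧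
        (∀ q : ZMod p, q ≠ 0 → ∀ C : Finset (ZMod p), (p : ℝ) ^ ε ≤ C.card →
          (squaresPlus q N C).card = N * C.card →
          ‖∑ a ∈ squaresPlus q N C, ∑ b ∈ squaresPlus q N C, χ (a - b)‖ <
            ((squaresPlus q N C).card : ℝ) ^ (2 - τ)) := by
  classical
  obtain ⟨τ, hτ, P1, hP1⟩ := H16.SQ.key ε hε
  set η : ℝ := min τ ε with hη
  have hη0 : 0 < η := lt_min hτ hε
  obtain ⟨P2, hP2⟩ := H16.SQ.large_pow (η / 2) (by positivity) 3
  refine ⟨η / 2, by positivity, P1 + P2 + 2, fun p hpp hp χ hχ N hN hNp => ?_⟩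
  have : Fact p.Prime := ⟨hpp⟩
  have hp1' : (1:ℝ) < p := by exact_mod_cast hpp.one_lt
  have hp1 : (1:ℝ) ≤ p := hp1'.le
  have hp0 : (0:ℝ) < p := by linarith
  have hN0 : (0:ℝ) < N := lt_of_lt_of_le (by positivity) hN
  have hS : ∀ (ω : ℤ → ℂ) (d : ZMod p), H16.SQ.SS χ ω d N =
      ∑ x ∈ Icc 1 N, ∑ y ∈ Icc 1 N, ω ((x : ℤ) - y) * χ ((x : ZMod p) ^ 2 - (y : ZMod p) ^ 2 + d) := by
    intro ω d
    unfold H16.SQ.SS H16.SQ.gg
    rw [sum_product]
  have h1 : ∀ d : ZMod p, d ≠ 0 → ∀ ω : ℤ → ℂ, (∀ u, ‖ω u‖ ≤ 1) →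
      ‖∑ x ∈ Icc 1 N, ∑ y ∈ Icc 1 N, ω ((x : ℤ) - y) * χ ((x : ZMod p) ^ 2 - (y : ZMod p) ^ 2 + d)‖
        ≤ (p : ℝ) ^ (-η) * (N : ℝ) ^ 2 := by
    intro d hd ω hω
    have := hP1 p (by omega) χ hχ ω hω d hd N hN hNp
    rw [hS] at this
    refine this.trans ?_
    apply mul_le_mul_of_nonneg_right _ (by positivity)
    exact Real.rpow_le_rpow_of_exponent_le hp1 (by linarith [min_le_left τ ε])
  have hηle : (p : ℝ) ^ (-η) ≤ (p : ℝ) ^ (-(η / 2)) := Real.rpow_le_rpow_of_exponent_le hp1 (by linarith)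
  -- the pairs `c, c'`
  have hpair : ∀ q : ZMod p, q ≠ 0 → ∀ c c' : ZMod p, ‖∑ x ∈ Icc 1 N, ∑ y ∈ Icc 1 N,
      χ ((q * (x : ZMod p) ^ 2 + c) - (q * (y : ZMod p) ^ 2 + c'))‖ ≤
      (p : ℝ) ^ (-η) * (N : ℝ) ^ 2 + if c = c' then (N : ℝ) ^ 2 else 0 := by
    intro q hq c c'
    split_ifs with hcc
    · have : ‖∑ x ∈ Icc 1 N, ∑ y ∈ Icc 1 N, χ ((q * (x : ZMod p) ^ 2 + c) - (q * (y : ZMod p) ^ 2 + c'))‖ ≤ (N : ℝ) ^ 2 := by
        refine (norm_sum_le _ _).trans ((sum_le_sum fun x _ => (norm_sum_le _ _).trans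
          (sum_le_sum fun y _ => DirichletCharacter.norm_le_one χ _)).trans (le_of_eq ?_))
        simp; ring
      have h0 : 0 ≤ (p : ℝ) ^ (-η) * (N : ℝ) ^ 2 := by positivity
      linarith
    · rw [add_zero]
      have hd : (c - c') * q⁻¹ ≠ 0 := mul_ne_zero (sub_ne_zero.2 hcc) (inv_ne_zero hq)
      have e : ∑ x ∈ Icc 1 N, ∑ y ∈ Icc 1 N, χ ((q * (x : ZMod p) ^ 2 + c) - (q * (y : ZMod p) ^ 2 + c')) =
          χ q * ∑ x ∈ Icc 1 N, ∑ y ∈ Icc 1 N,
            χ ((x : ZMod p) ^ 2 - (y : ZMod p) ^ 2 + (c - c') * q⁻¹) := by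
        rw [mul_sum]
        refine sum_congr rfl fun x _ => ?_
        rw [mul_sum]
        refine sum_congr rfl fun y _ => ?_
        rw [← map_mul]
        congr 1
        field_simp
        ring
      rw [e, norm_mul]
      have h5 := h1 _ hd (fun _ => 1) (fun _ => by simp)
      simp only [one_mul] at h5
      exact (mul_le_of_le_one_left (norm_nonneg _) (DirichletCharacter.norm_le_one χ _)).trans h5
  have h2 : ∀ q : ZMod p, q ≠ 0 → ∀ C : Finset (ZMod p),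
      ∑ c ∈ C, ∑ c' ∈ C, ‖∑ x ∈ Icc 1 N, ∑ y ∈ Icc 1 N,
          χ ((q * (x : ZMod p) ^ 2 + c) - (q * (y : ZMod p) ^ 2 + c'))‖
        ≤ ((p : ℝ) ^ (-η) + 1 / (C.card : ℝ)) * ((N : ℝ) ^ 2 * (C.card : ℝ) ^ 2) := by
    intro q hq C
    calc _ ≤ ∑ c ∈ C, ∑ c' ∈ C, ((p : ℝ) ^ (-η) * (N : ℝ) ^ 2 + if c = c' then (N : ℝ) ^ 2 else 0) :=
          sum_le_sum fun c _ => sum_le_sum fun c' _ => hpair q hq c c'
      _ = (C.card : ℝ) ^ 2 * ((p : ℝ) ^ (-η) * (N : ℝ) ^ 2) + C.card * (N : ℝ) ^ 2 := by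
          simp_rw [sum_add_distrib, sum_const, nsmul_eq_mul, sum_ite_eq]
          have : ∑ c ∈ C, (if c ∈ C then (N : ℝ) ^ 2 else 0) = C.card * (N : ℝ) ^ 2 := by
            rw [sum_congr rfl (fun c hc => if_pos hc), sum_const, nsmul_eq_mul]
          rw [this]; ring
      _ = ((p : ℝ) ^ (-η) + 1 / (C.card : ℝ)) * ((N : ℝ) ^ 2 * (C.card : ℝ) ^ 2) := by
          rcases eq_or_ne (C.card : ℝ) 0 with h0 | h0
          · rw [h0]; ring
          · field_simp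
  refine ⟨fun d hd ω hω => (h1 d hd ω hω).trans (mul_le_mul_of_nonneg_right hηle (by positivity)),
    fun q hq C => (h2 q hq C).trans ?_, fun q hq C hC hcard => ?_⟩
  · apply mul_le_mul_of_nonneg_right _ (by positivity)
    linarith
  · -- the set
    have hinj : Set.InjOn (fun v : ℕ × ZMod p => q * (v.1 : ZMod p) ^ 2 + v.2) (Icc 1 N ×ˢ C : Finset (ℕ × ZMod p)) := by
      rw [← card_image_iff]
      unfold squaresPlus at hcard
      rw [hcard, card_product, Nat.card_Icc, Nat.add_sub_cancel]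
    have e1 : ∀ f : ZMod p → ℂ, ∑ a ∈ squaresPlus q N C, f a = ∑ c ∈ C, ∑ x ∈ Icc 1 N, f (q * (x : ZMod p) ^ 2 + c) := by
      intro f
      unfold squaresPlus
      rw [sum_image hinj, sum_product_right]
    have e2 : ∑ a ∈ squaresPlus q N C, ∑ b ∈ squaresPlus q N C, χ (a - b) =
        ∑ c ∈ C, ∑ c' ∈ C, ∑ x ∈ Icc 1 N, ∑ y ∈ Icc 1 N,
              χ ((q * (x : ZMod p) ^ 2 + c) - (q * (y : ZMod p) ^ 2 + c')) := by
      rw [e1]
      simp_rw [e1]
      refine sum_congr rfl fun c _ => ?_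
      rw [sum_comm]
    have hC0 : (0:ℝ) < C.card := lt_of_lt_of_le (by positivity) hC
    have hinv : 1 / (C.card : ℝ) ≤ (p : ℝ) ^ (-η) := by
      rw [Real.rpow_neg hp0.le, one_div]
      apply inv_anti₀ (by positivity)
      exact (Real.rpow_le_rpow_of_exponent_le hp1 (min_le_right τ ε)).trans hC
    have hAcard : ((squaresPlus q N C).card : ℝ) = N * C.card := by rw [hcard]; push_cast; ring
    have hA0 : (0:ℝ) < (squaresPlus q N C).card := by rw [hAcard]; positivity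
    have hAp : ((squaresPlus q N C).card : ℝ) ≤ p := by
      have : (squaresPlus q N C).card ≤ p := by
        refine (card_le_univ _).trans ?_
        rw [ZMod.card]
      exact_mod_cast this
    have h3 : ‖∑ a ∈ squaresPlus q N C, ∑ b ∈ squaresPlus q N C, χ (a - b)‖ ≤
        2 * (p : ℝ) ^ (-η) * ((squaresPlus q N C).card : ℝ) ^ 2 := by
      rw [e2, hAcard]
      refine (norm_sum_le _ _).trans ((sum_le_sum fun c _ => norm_sum_le _ _).trans ((h2 q hq C).trans ?_))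
      calc ((p : ℝ) ^ (-η) + 1 / (C.card : ℝ)) * ((N : ℝ) ^ 2 * (C.card : ℝ) ^ 2) ≤
            ((p : ℝ) ^ (-η) + (p : ℝ) ^ (-η)) * ((N : ℝ) ^ 2 * (C.card : ℝ) ^ 2) := by gcongr
        _ = _ := by ring
    have h4 : 2 * (p : ℝ) ^ (-η) < (p : ℝ) ^ (-(η / 2)) := by
      have h5 := hP2 p (by omega)
      have h6 : (p : ℝ) ^ (-(η / 2)) = (p : ℝ) ^ (η / 2) * (p : ℝ) ^ (-η) := by
        rw [← Real.rpow_add hp0]; congr 1; ring
      rw [h6]
      have : 0 < (p : ℝ) ^ (-η) := by positivity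
      nlinarith
    calc _ ≤ 2 * (p : ℝ) ^ (-η) * ((squaresPlus q N C).card : ℝ) ^ 2 := h3
      _ < (p : ℝ) ^ (-(η / 2)) * ((squaresPlus q N C).card : ℝ) ^ 2 := by gcongr
      _ ≤ ((squaresPlus q N C).card : ℝ) ^ (-(η / 2)) * ((squaresPlus q N C).card : ℝ) ^ 2 := by
          apply mul_le_mul_of_nonneg_right _ (by positivity)
          exact Real.rpow_le_rpow_of_nonpos hA0 hAp (by linarith)
      _ = ((squaresPlus q N C).card : ℝ) ^ (2 - η / 2) := by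
          rw [← Real.rpow_natCast ((squaresPlus q N C).card : ℝ) 2, ← Real.rpow_add hA0]
          congr 1; push_cast; ring

end Pool.Agent.Results.MP_cb27ba_nt.SquaresPlusSet
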